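import Pool.Agent.Lib.MP_6d445e_gt.W.Iface4

/-!
# STEPW: the step of the recursion
-/

universe u

open Cardinal Filter

namespace Pool.Agent.Lib.MP_6d445e_gt.H15

open Pool.Agent.Lib.MP_100a6c_lc
open Pool.Agent.Lib.MP_c5d73d_lc.F (pr)
open Pool.Agent.Lib.MP_e6fef2_lc
open Pool.Agent.Lib.MP_e6fef2_lc.H36 (mk mk_lt mk_self)

section

variable {I : Type u} [LinearOrder I]

/-- The properties of stage `β`, in terms of the previous states `Z` and the new state `Y`. -/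
structure OkZ (κ : Cardinal.{u}) (β : I) (Z : Set.Iio β → St I Sw.{u}) (Y : St I Sw.{u}) :
    Prop where
  good : GoodT κ (fun i : Set.Iio β => (Z i).A) (fm Subtype.val Z)
    (fun i => (Z i).ι) (fun i => (Z i).M) (fun i a => Y.mp i.1 ⟨(Z i).A, a⟩) Y.ι Y.M
  id : ∀ a : Y.A, Y.mp β ⟨Y.A, a⟩ = a
  succ : ∀ i : Set.Iio β, i.1 ⋖ β → ∃ φ : MC (Z i).A → Y.A, IsCE φ ∧ Function.Surjective φ ∧
    ∀ a : (Z i).A, φ (mE (Z i).A a) = Y.mp i.1 ⟨(Z i).A, a⟩

theorem okW_of (κ : Cardinal.{u}) (β : I) (X : I → St I Sw.{u})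
    (h : OkZ κ β (fun i : Set.Iio β => X i.1) (X β)) : OkW κ β X :=
  ⟨h.good, h.id, fun i hi => h.succ ⟨i, hi.lt⟩ hi⟩

variable (β : I) (Z : Set.Iio β → St I Sw.{u})
  {C : Type u} [CompleteBooleanAlgebra C] (e : ∀ i, (Z i).A → C) (ιC : H1.RO Sw.{u} → C)
  (M' : Set C)

theorem mk_okZ (κ : Cardinal.{u})
    (hg : GoodT κ (fun i => (Z i).A) (fm Subtype.val Z) (fun i => (Z i).ι) (fun i => (Z i).M)
      e ιC M')
    (hs : ∀ i : Set.Iio β, i.1 ⋖ β → ∃ φ : MC (Z i).A → C, IsCE φ ∧ Function.Surjective φ ∧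
      ∀ a : (Z i).A, φ (mE (Z i).A a) = e i a) :
    OkZ κ β Z (mk β Z e ιC M') := by
  have h1 : (fun (i : Set.Iio β) (a : (Z i).A) => (mk β Z e ιC M').mp i.1 ⟨(Z i).A, a⟩) = e := by
    funext i a
    exact mk_lt β Z e ιC M' i a
  refine ⟨?_, mk_self β Z e ιC M', ?_⟩
  · rw [h1]; exact hg
  · intro i hi
    obtain ⟨φ, h2, h3, h4⟩ := hs i hi
    refine ⟨φ, h2, h3, fun a => ?_⟩
    rw [mk_lt β Z e ιC M' i a]
    exact h4 a

end

theorem stepw (hO : OkgwStatement.{u}) (hT0 : Top0wStatement.{u}) (hTL : ToplwStatement.{u})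
    (hTM : TopmwStatement.{u}) : StepwStatement.{u} := by
  classical
  intro κ I _ _ hI β X hX
  set Z : Set.Iio β → St I Sw.{u} := fun i => X i.1 with hZdef
  suffices h : ∃ Y, OkZ κ β Z Y by
    obtain ⟨Y, hY⟩ := h
    refine ⟨Y, okW_of κ β _ ?_⟩
    have h1 : (fun i : Set.Iio β => Function.update X β Y i.1) = Z := by
      funext i
      exact Function.update_of_ne (ne_of_lt i.2) _ _
    have h2 : Function.update X β Y β = Y := Function.update_self _ _ _
    rw [h1, h2]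
    exact hY
  have hgood : GoodC κ (fun l => (Z l).A) (fm Subtype.val Z) (fun l => (Z l).ι)
      fun l => (Z l).M :=
    hO κ I X (Set.Iio β) Subtype.val (fun _ _ h => h)
      (fun l i hi => ⟨⟨i, lt_of_le_of_lt hi l.2⟩, rfl⟩) (fun l => hX l.1 l.2)
  by_cases hne : Nonempty (Set.Iio β)
  · by_cases hm : ∃ m : Set.Iio β, ∀ i, i ≤ m
    · obtain ⟨m, hm⟩ := hm
      have hcov : ∀ i : Set.Iio β, i.1 ⋖ β → i = m := by
        intro i hi
        by_contra hne
        exact hi.2 (lt_of_le_of_ne (hm i) hne : i < m) m.2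
      obtain ⟨M', hM'⟩ := hTM κ I hI (Set.Iio β) (fun l => (Z l).A)
        (fm Subtype.val Z) (fun l => (Z l).ι) (fun l => (Z l).M) hgood m hm
      refine ⟨mk β Z (fun i a => mE (Z m).A (fm Subtype.val Z i m a))
        (fun x => mE (Z m).A ((Z m).ι x)) M', mk_okZ β Z _ _ M' κ hM' ?_⟩
      intro i hi
      have him := hcov i hi
      subst him
      refine ⟨fun x => x, MP_e6fef2_lc.H60.isCE_id _, Function.surjective_id, fun a => ?_⟩
      have : fm Subtype.val Z i i a = a := hgood.ch.id i a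
      simp only [this]
    · have hnm : NoMaxOrder (Set.Iio β) := by
        refine ⟨fun a => ?_⟩
        by_contra hc
        push Not at hc
        exact hm ⟨a, hc⟩
      have hcard : #(Set.Iio β) < κ := hI.seg β
      obtain ⟨C, _, e, ιC, M', hgt⟩ := hTL κ I hI (Set.Iio β) hcard
        (fun l => (Z l).A) (fm Subtype.val Z) (fun l => (Z l).ι) (fun l => (Z l).M) hgood
      refine ⟨mk β Z e ιC M', mk_okZ β Z e ιC M' κ hgt ?_⟩
      intro i hi
      obtain ⟨j, hj⟩ := hnm.exists_gt i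
      exact absurd j.2 (hi.2 (hj : i.1 < j.1))
  · have hemp : IsEmpty (Set.Iio β) := not_nonempty_iff.1 hne
    have hgt := hT0 κ hI.unc (Set.Iio β) (fun l => (Z l).A) (fm Subtype.val Z)
      (fun l => (Z l).ι) (fun l => (Z l).M)
    exact ⟨mk β Z (fun i => isEmptyElim i) (fun x => x) {⊤, ⊥},
      mk_okZ β Z _ _ _ κ hgt fun i => hemp.elim i⟩

end Pool.Agent.Lib.MP_6d445e_gt.H15
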