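import Pool.Agent.Lib.MP_6d445e_gt.W.Iface4

/-!
# TOP0W: the first algebra
-/

universe u

open Cardinal Filter

namespace Pool.Agent.Lib.MP_6d445e_gt.H15

open Pool.Agent.Lib.MP_100a6c_lc
open Pool.Agent.Lib.MP_c5d73d_lc.F (pr)
open Pool.Agent.Lib.MP_e6fef2_lc

theorem top0w (hS : SgsStatement.{u}) : Top0wStatement.{u} := by
  intro κ hκ L _ _ A _ f ι M
  have hdm : DM (fun x : H1.RO Sw.{u} => x) {⊤, ⊥} := by
    intro a ha
    obtain ⟨s, hs⟩ := MP_e6fef2_lc.H60.ro_dense a ha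
    refine ⟨s, ⊤, Or.inl rfl, ?_, ?_⟩
    · rw [inf_top_eq]
      exact Pool.Agent.Lib.MP_c5d73d_lc.F.H62.pr_ne_bot s
    · rw [inf_top_eq]
      exact hs
  have hcard : #(({⊤, ⊥} : Set (H1.RO Sw.{u}))) < κ :=
    lt_of_lt_of_le (Cardinal.lt_aleph0_iff_finite.2 (Set.toFinite _).to_subtype) hκ.le
  refine ⟨⟨fun i => isEmptyElim i, fun i => isEmptyElim i⟩, MP_e6fef2_lc.H60.isCE_id _,
    fun i => isEmptyElim i, fun i => isEmptyElim i, MP_e6fef2_lc.H60.pe_id _, ?_, ?_,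
    MP_e6fef2_lc.H60.sigC_pair _, fun i => isEmptyElim i, hcard, hdm, hS.2,
    fun i => isEmptyElim i⟩
  · intro i
    exact (IsEmpty.false (i 0)).elim
  · intro h
    exact (IsEmpty.false h.some).elim

end Pool.Agent.Lib.MP_6d445e_gt.H15
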